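import Pool.Agent.AT2.Stmts
import Pool.Agent.Helper3_AT3.DUG
import Pool.Agent.Helper62_AT3.LCJ
import Pool.Agent.Helper85_AT3.LSB

/-!
# Squad AT2, row ORT: the idempotents over different conjugates of `U` are orthogonal
-/

set_option autoImplicit false

open scoped BigOperators

noncomputable section

namespace Pool.Agent.PP.T2.H72

open Pool.Agent.Helper51_AWC Pool.Agent.Helper79_WRA Pool.Agent.PP Pool.Agent.PP.KF
open Pool.Agent.PP.K9 Pool.Agent.PP.K9.H97 Pool.Agent.PP.H75 Pool.Agent.PP.T3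

attribute [local instance] Ideal.Quotient.field

section

variable {F G : Type} [Field F] [Group G] [Finite G]

omit [Finite G] in
theorem br_cj (a : G) (R : Subgroup G) (e : G → F) :
    br (conjS a R) (cj a e) = cj a (br R e) := by
  funext x
  by_cases hx : x ∈ Subgroup.centralizer (conjS a R : Set G)
  · rw [H66.br_of_mem hx]
    change e (a⁻¹ * x * a) = br R e (a⁻¹ * x * a)
    rw [H66.br_of_mem ((T3.H62.mem_cent_conjS x).1 hx)]
  · rw [H66.br_of_not_mem hx]
    change 0 = br R e (a⁻¹ * x * a)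
    rw [H66.br_of_not_mem (fun h => hx ((T3.H62.mem_cent_conjS x).2 h))]

/-- the data of one conjugate -/
theorem conj_data {ℓ : ℕ} (hF : GoodF ℓ F) {e : G → F} (he : IsCl e) {U : Subgroup G} {f : G → F}
    (hf : Bx (Subgroup.normalizer (U : Set G)) f) (hund : mulF (br U e) f = f) {Q : Subgroup G}
    (hQ : IsPGroup ℓ Q) {a : G} (hb : Bt U Q a) :
    Ix (Subgroup.centralizer (Q : Set G)) (br Q (cj a f)) ∧
      mulF (br Q e) (br Q (cj a f)) = br Q (cj a f) := by
  have hX : ∀ x, x ∈ Subgroup.normalizer (conjS a U : Set G) ↔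
      a⁻¹ * x * a ∈ Subgroup.normalizer (U : Set G) := fun x => T3.H62.mem_norm_conjS x
  have hfa : Bx (Subgroup.normalizer (conjS a U : Set G)) (cj a f) := T3.H62.bx_cj hX hf
  have hQN : Q ≤ Subgroup.normalizer (conjS a U : Set G) :=
    hb.2.trans (T3.H85.cent_le_norm _)
  have hCN : Subgroup.centralizer (Q : Set G) ≤ Subgroup.normalizer (conjS a U : Set G) :=
    (Subgroup.centralizer_le (show ((conjS a U : Subgroup G) : Set G) ⊆ Q from hb.1)).trans
      (T3.H85.cent_le_norm _)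
  have hinv : H66.Inv Q (cj a f) := fun p hp t => C2.H3.ix_inv hfa.ix (hQN hp) t
  refine ⟨C2.H3.ix_br hF hQ (fun y hy x => C2.H3.ix_inv hfa.ix (hCN hy) x) hinv hfa.mul, ?_⟩
  have h1 : mulF (br (conjS a U) e) (cj a f) = cj a f := by
    have h2 := congrArg (cj a) hund
    rw [cj_mulF, ← br_cj, cj_isCl a he] at h2
    exact h2
  have hinv2 : H66.Inv Q (br (conjS a U) e) := by
    intro p hp t
    have hpN := hQN hp
    have hiff : p * t * p⁻¹ ∈ Subgroup.centralizer (conjS a U : Set G) ↔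
        t ∈ Subgroup.centralizer (conjS a U : Set G) := by
      have hpC : p ∈ Subgroup.centralizer (conjS a U : Set G) := hb.2 hp
      constructor
      · intro h
        have := mul_mem (mul_mem (inv_mem hpC) h) hpC
        have e1 : p⁻¹ * (p * t * p⁻¹) * p = t := by group
        rwa [e1] at this
      · intro h
        exact mul_mem (mul_mem hpC h) (inv_mem hpC)
    by_cases ht : t ∈ Subgroup.centralizer (conjS a U : Set G)
    · rw [H66.br_of_mem ht, H66.br_of_mem (hiff.2 ht)]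
      exact he t p
    · rw [H66.br_of_not_mem ht, H66.br_of_not_mem (fun h => ht (hiff.1 h))]
  have h3 := congrArg (br Q) h1
  rwa [H66.br_mulF hF hQ hinv2 hinv, C2.H3.br_br hb.1] at h3

end

theorem uniq (pwu : PwuStmt) {ℓ : ℕ} [Fact ℓ.Prime] {M : Ideal (integralClosure ℤ ℂ)}
    [M.IsMaximal] (hM : (ℓ : integralClosure ℤ ℂ) ∈ M) {G : Type} [Group G] [Finite G]
    {e : G → FF M} {V : Subgroup G} {γ : G → FF M} (hL : Ld ℓ e V γ) {n : ℕ} {f : G → FF M}
    (hf : Fs ℓ e V (Uw n V) γ f) {Q P : Subgroup G} (hQP : Q ≤ P)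
    (hPC : P ≤ Subgroup.centralizer (Q : Set G)) (hP : IsPGroup ℓ P)
    (hPV : Nat.card P = Nat.card V) {a : G} (hb : Bt (Uw n V) Q a)
    {b : G → FF M} (hbx : Ix (Subgroup.centralizer (Q : Set G)) b)
    (hI : Ix (Subgroup.centralizer (Q : Set G)) (br Q (cj a f))) (hgb : Gd b P)
    (hab : mulF (br Q (cj a f)) b = b) : Uw n P = conjS a (Uw n V) := by
  have hF : GoodF ℓ (FF M) := H50.fld ℓ Fact.out M hM
  obtain ⟨-, hUV, -, -, hUc, -, -, -⟩ := pwu G n V hL.ab
  have hPN : P ≤ Subgroup.normalizer (conjS a (Uw n V) : Set G) :=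
    (hPC.trans (Subgroup.centralizer_le
      (show ((conjS a (Uw n V) : Subgroup G) : Set G) ⊆ Q from hb.1))).trans
      (T3.H85.cent_le_norm _)
  -- `P` is good for `cj a f`
  have hinv1 : H66.Inv P (br Q (cj a f)) := fun p hp t => C2.H3.ix_inv hI (hPC hp) t
  have hinv2 : H66.Inv P b := fun p hp t => C2.H3.ix_inv hbx (hPC hp) t
  have h1 := congrArg (br P) hab
  rw [H66.br_mulF hF hP hinv1 hinv2, C2.H3.br_br hQP] at h1
  have h2 : br P (cj a f) ≠ 0 := by
    intro h0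
    rw [h0, H75.mulF_zero_left] at h1
    exact C2.H3.br_ne_of_gd hgb h1.symm
  obtain ⟨t, ht, hft⟩ := C2.H3.gd_of_br' h2
  -- the conjugate `P'` of `P` in the normaliser of `U`
  have hP'X : conjS a⁻¹ P ≤ Subgroup.normalizer (Uw n V : Set G) := by
    intro x hx
    rw [T3.H62.mem_conjS, inv_inv] at hx
    have h3 := (T3.H62.mem_norm_conjS _).1 (hPN hx)
    have e1 : a⁻¹ * (a * x * a⁻¹) * a = x := by group
    rwa [e1] at h3
  have hP'p : IsPGroup ℓ ((conjS a⁻¹ P).subgroupOf (Subgroup.normalizer (Uw n V : Set G))) := by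
    have h3 : IsPGroup ℓ (conjS a⁻¹ P) := conjS_pgroup hP
    exact h3.of_equiv (Subgroup.subgroupOfEquivOfLe hP'X).symm
  have hta : f (a⁻¹ * t * a) ≠ 0 := hft
  have htX : a⁻¹ * t * a ∈ Subgroup.normalizer (Uw n V : Set G) := by
    by_contra h
    exact hta (hf.blk.supp _ h)
  have hgd : Gd (fun t : Subgroup.normalizer (Uw n V : Set G) => f t)
      ((conjS a⁻¹ P).subgroupOf (Subgroup.normalizer (Uw n V : Set G))) := by
    refine ⟨⟨a⁻¹ * t * a, htX⟩, ?_, hta⟩
    rw [Subgroup.mem_centralizer_iff]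
    rintro x hx
    apply Subtype.ext
    change (x : G) * (a⁻¹ * t * a) = a⁻¹ * t * a * (x : G)
    have h3 : (x : G) ∈ conjS a⁻¹ P := hx
    rw [T3.H62.mem_conjS, inv_inv] at h3
    have h4 := Subgroup.mem_centralizer_iff.1 ht _ h3
    calc (x : G) * (a⁻¹ * t * a) = a⁻¹ * (a * (x : G) * a⁻¹ * t) * a := by group
      _ = a⁻¹ * (t * (a * (x : G) * a⁻¹)) * a := by rw [h4]
      _ = _ := by group
  obtain ⟨y, hy⟩ := (K9.H69.fmg ℓ M hM _ _ hf.ld.blk _ hf.ld.tp).1 _ hP'p hgd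
  have hyN : (y : G) ∈ Subgroup.normalizer (Uw n V : Set G) := y.2
  -- `P ≤ conjS (a y) V`
  have hle : P ≤ conjS (a * y) V := by
    intro x hx
    have h3 : a⁻¹ * x * a ∈ conjS a⁻¹ P := by
      rw [T3.H62.mem_conjS]
      have e1 : a⁻¹⁻¹ * (a⁻¹ * x * a) * a⁻¹ = x := by group
      rwa [e1]
    have h4 : (⟨a⁻¹ * x * a, hP'X h3⟩ : Subgroup.normalizer (Uw n V : Set G)) ∈
        conjS y (V.subgroupOf (Subgroup.normalizer (Uw n V : Set G))) := hy h3
    rw [T3.H62.mem_conjS, Subgroup.mem_subgroupOf] at h4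
    rw [T3.H62.mem_conjS]
    have e2 : (a * (y : G))⁻¹ * x * (a * (y : G)) =
        ((y⁻¹ * ⟨a⁻¹ * x * a, hP'X h3⟩ * y : Subgroup.normalizer (Uw n V : Set G)) : G) := by
      change _ = (y : G)⁻¹ * (a⁻¹ * x * a) * (y : G)
      group
    rw [e2]
    exact h4
  have hPe : P = conjS (a * y) V := by
    refine Subgroup.eq_of_le_of_card_ge hle ?_
    rw [T3.H62.card_conjS', hPV]
  rw [hPe, hUc, ← conjS_conjS, mem_normalizer_iff_conjS.1 hyN]

/-- ORT -/
theorem ort (pwu : PwuStmt) : OrtStmt := by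
  intro ℓ _ M _ hM G _ _ e V γ hL n f hf Q hQ g h hbg hbh hne
  have hF : GoodF ℓ (FF M) := H50.fld ℓ Fact.out M hM
  obtain ⟨hI1, hE1⟩ := conj_data hF hL.blk.1.1 hf.blk hf.und hQ hbg
  obtain ⟨hI2, -⟩ := conj_data hF hL.blk.1.1 hf.blk hf.und hQ hbh
  by_contra hcon
  have hs : ∀ x, x ∉ Subgroup.centralizer (Q : Set G) →
      mulF (br Q (cj g f)) (br Q (cj h f)) x = 0 := H75.mulF_supp _ hI1.supp hI2.supp
  have hcomm := hI1.comm hI2
  -- `E₁ E₂` is an idempotent
  have hmm : mulF (mulF (br Q (cj g f)) (br Q (cj h f)))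
      (mulF (br Q (cj g f)) (br Q (cj h f))) = mulF (br Q (cj g f)) (br Q (cj h f)) := by
    rw [H20.mulF_assoc, ← H20.mulF_assoc (br Q (cj h f)) (br Q (cj g f)), ← hcomm,
      H20.mulF_assoc (br Q (cj g f)) (br Q (cj h f)), hI2.mul, ← H20.mulF_assoc, hI1.mul]
  have hI : Ix (Subgroup.centralizer (Q : Set G)) (mulF (br Q (cj g f)) (br Q (cj h f))) := by
    refine ⟨hs, ?_, ?_⟩
    · intro x y
      have h1 : cj (y : G)⁻¹ (mulF (br Q (cj g f)) (br Q (cj h f))) =
          mulF (br Q (cj g f)) (br Q (cj h f)) := by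
        rw [cj_mulF, hI1.inv (inv_mem y.2), hI2.inv (inv_mem y.2)]
      have h2 := congrFun h1 x
      rw [cj, inv_inv] at h2
      exact h2
    · rw [← H75.mulF_res _ _ hs, hmm]
  obtain ⟨b₀, hb₀, hgb, -⟩ := K9.H24.exists_blk
    (L := fun a : Subgroup.centralizer (Q : Set G) → FF M => a) rfl
    (fun a b => rfl) hI.idem (by
      intro h0
      apply hcon
      exact H75.eq_of_res hI.supp (fun _ _ => rfl) h0)
  obtain ⟨b, hb⟩ : ∃ b : G → FF M, b = H75.ext0 (Subgroup.centralizer (Q : Set G)) b₀ := ⟨_, rfl⟩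
  have hbs : ∀ x, x ∉ Subgroup.centralizer (Q : Set G) → b x = 0 := by
    rw [hb]
    exact H75.ext0_supp _ b₀
  have hbC : (fun t : Subgroup.centralizer (Q : Set G) => b t) = b₀ := by
    rw [hb]
    exact funext (H75.ext0_apply _ b₀)
  have hBb : Bx (Subgroup.centralizer (Q : Set G)) b := ⟨hbs, by rw [hbC]; exact hb₀⟩
  have hEb : mulF (mulF (br Q (cj g f)) (br Q (cj h f))) b = b := by
    apply H75.eq_of_res (H75.mulF_supp _ hI.supp hbs) hbs
    rw [H75.mulF_res _ b hI.supp, hbC, hgb]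
  have h1b : mulF (br Q (cj g f)) b = b := by
    conv_lhs => rw [← hEb]
    rw [← H20.mulF_assoc, ← H20.mulF_assoc, hI1.mul, hEb]
  have h2b : mulF (br Q (cj h f)) b = b := by
    conv_lhs => rw [← hEb]
    rw [hcomm, ← H20.mulF_assoc, ← H20.mulF_assoc, hI2.mul, ← hcomm, hEb]
  have heb : mulF (br Q e) b = b := by
    rw [← h1b, ← H20.mulF_assoc, hE1]
  obtain ⟨P, hP, hQP, hPC, hPV, hgP⟩ := C2.H3.gdv C2.H3.dug ℓ M hM G e hL.blk V hL.tp hL.ab Q hQ b
    ⟨hBb.supp, hBb.blk⟩ heb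
  apply hne
  rw [← uniq pwu hM hL hf hQP hPC hP hPV hbg hBb.ix hI1 hgP h1b,
    ← uniq pwu hM hL hf hQP hPC hP hPV hbh hBb.ix hI2 hgP h2b]

end Pool.Agent.PP.T2.H72
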